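import Pool.Agent.Helper70.DK.Defs2

set_option autoImplicit false

/-! VOL: many separated points on the slices give a large neighbourhood. -/

namespace Pool.Agent.Helper70.DK

open Finset MeasureTheory

theorem vol_mp (m : ℕ) : MeasurePreserving
    (fun p : ℝ × (Fin m → ℝ) => (pt p.2 p.1 : EuclideanSpace ℝ (Fin (m + 1)))) := by
  have h1 := (volume_preserving_piFinSuccAbove (fun _ : Fin (m + 1) => ℝ) (Fin.last m)).symm
  have h2 := (PiLp.volume_preserving_toLp (Fin (m + 1))).comp h1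
  have h3 : (fun p : ℝ × (Fin m → ℝ) => (pt p.2 p.1 : EuclideanSpace ℝ (Fin (m + 1)))) =
      WithLp.toLp 2 ∘ (MeasurableEquiv.piFinSuccAbove (fun _ : Fin (m + 1) => ℝ)
        (Fin.last m)).symm := by
    funext p
    show WithLp.toLp 2 (Fin.snoc (α := fun _ => ℝ) p.2 p.1) = WithLp.toLp 2 _
    congr 1
    show _ = Fin.insertNth (α := fun _ => ℝ) (Fin.last m) p.1 p.2
    rw [Fin.insertNth_last']
  rw [h3]
  exact h2

theorem vol_fub {m : ℕ} (U : Set (EuclideanSpace ℝ (Fin (m + 1)))) (hU : MeasurableSet U) :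
    volume U = ∫⁻ t : ℝ, volume {y : Fin m → ℝ | pt y t ∈ U} ∧
      Measurable (fun t : ℝ => volume {y : Fin m → ℝ | pt y t ∈ U}) := by
  have hg := vol_mp m
  have hm : MeasurableSet ((fun p : ℝ × (Fin m → ℝ) =>
      (pt p.2 p.1 : EuclideanSpace ℝ (Fin (m + 1)))) ⁻¹' U) := hg.measurable hU
  refine ⟨?_, ?_⟩
  · rw [← hg.measure_preimage hU.nullMeasurableSet, Measure.volume_eq_prod,
      Measure.prod_apply hm]
    rfl
  · exact measurable_measure_prodMk_left hm

theorem vol_dist {m : ℕ} (y y' : Fin m → ℝ) (t r : ℝ) (hr : 0 < r)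
    (h : ∀ c, |y' c - y c| < r) :
    dist (pt y' t : EuclideanSpace ℝ (Fin (m + 1))) (pt y t) < (m + 1) * r := by
  rw [EuclideanSpace.dist_eq]
  have h0 : 0 < (m + 1 : ℝ) * r := by positivity
  rw [Real.sqrt_lt' h0, Fin.sum_univ_castSucc]
  have h1 : dist ((pt y' t : EuclideanSpace ℝ (Fin (m + 1))).ofLp (Fin.last m))
      ((pt y t : EuclideanSpace ℝ (Fin (m + 1))).ofLp (Fin.last m)) = 0 := by
    simp [pt]
  rw [h1]
  have h2 : ∀ c : Fin m, dist ((pt y' t : EuclideanSpace ℝ (Fin (m + 1))).ofLp c.castSucc)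
      ((pt y t : EuclideanSpace ℝ (Fin (m + 1))).ofLp c.castSucc) ^ 2 ≤ r ^ 2 := by
    intro c
    have h3 : dist ((pt y' t : EuclideanSpace ℝ (Fin (m + 1))).ofLp c.castSucc)
      ((pt y t : EuclideanSpace ℝ (Fin (m + 1))).ofLp c.castSucc) = |y' c - y c| := by
      simp [pt, Real.dist_eq]
    rw [h3]
    exact pow_le_pow_left₀ (abs_nonneg _) (h c).le 2
  have h4 := Finset.sum_le_sum (s := Finset.univ) (fun c (_ : c ∈ Finset.univ) => h2 c)
  rw [Finset.sum_const, Finset.card_univ, Fintype.card_fin, nsmul_eq_mul] at h4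
  have h5 : (m : ℝ) * r ^ 2 < ((m + 1) * r) ^ 2 := by
    have hm : (0 : ℝ) ≤ m := Nat.cast_nonneg m
    have hr2 : 0 < r ^ 2 := by positivity
    nlinarith
  have h6 : (0 : ℝ) ^ 2 = 0 := by norm_num
  rw [h6, add_zero]
  exact lt_of_le_of_lt h4 h5

/-- the volume of a slice -/
theorem vol_slice (m : ℕ) (S : Set (Fin m → ℝ)) (F : Finset (Fin m → ℝ)) (x0 : Fin m → ℝ)
    (ρ r : ℝ) (hρ : 0 < ρ) (hr : 0 < r) (hr2 : 2 * r ≤ ρ)
    (hF : ∀ y ∈ F, ∀ y' : Fin m → ℝ, (∀ c, |y' c - y c| < r) → y' ∈ S)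
    (hinj : ∀ y ∈ F, ∀ y' ∈ F, fl (fun c => (y c - x0 c) / ρ) = fl (fun c => (y' c - x0 c) / ρ) →
      y = y') :
    (F.card : ENNReal) * ENNReal.ofReal ((2 * r) ^ m) ≤ 2 ^ m * volume S := by
  classical
  -- the residue class of a point
  let κ : (Fin m → ℝ) → (Fin m → ZMod 2) := fun y c => ((fl (fun c => (y c - x0 c) / ρ) c : ℤ) : ZMod 2)
  have hcls : ∀ k : Fin m → ZMod 2,
      ((F.filter (fun y => κ y = k)).card : ENNReal) * ENNReal.ofReal ((2 * r) ^ m) ≤ volume S := by
    intro k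
    have hd : (↑(F.filter (fun y => κ y = k)) : Set (Fin m → ℝ)).PairwiseDisjoint
        (fun y => Metric.ball y r) := by
      intro y hy y' hy' hne
      rw [Finset.mem_coe, Finset.mem_filter] at hy hy'
      rw [Function.onFun, Set.disjoint_left]
      intro z hz hz'
      apply hne
      apply hinj y hy.1 y' hy'.1
      funext c
      have hpar : ((fl (fun c => (y c - x0 c) / ρ) c : ℤ) : ZMod 2) =
          ((fl (fun c => (y' c - x0 c) / ρ) c : ℤ) : ZMod 2) := by
        have h1 := congrFun hy.2 c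
        have h2 := congrFun hy'.2 c
        exact h1.trans h2.symm
      rw [ZMod.intCast_eq_intCast_iff, Int.modEq_iff_dvd] at hpar
      obtain ⟨e, he⟩ := hpar
      rw [Metric.mem_ball, dist_pi_lt_iff hr] at hz hz'
      have h3 := hz c
      have h4 := hz' c
      rw [Real.dist_eq] at h3 h4
      have h5 : |y c - y' c| < ρ := by
        have := abs_sub_lt_iff.1 h3
        have := abs_sub_lt_iff.1 h4
        rw [abs_sub_lt_iff]
        constructor <;> linarith
      -- cells differ by less than 2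
      have h6 : |(y c - x0 c) / ρ - (y' c - x0 c) / ρ| < 1 := by
        rw [← sub_div, abs_div, abs_of_pos hρ, div_lt_one hρ]
        have : y c - x0 c - (y' c - x0 c) = y c - y' c := by ring
        rw [this]
        exact h5
      simp only [fl] at he ⊢
      have f1 := Int.floor_le ((y c - x0 c) / ρ)
      have f2 := Int.lt_floor_add_one ((y c - x0 c) / ρ)
      have f3 := Int.floor_le ((y' c - x0 c) / ρ)
      have f4 := Int.lt_floor_add_one ((y' c - x0 c) / ρ)
      have h7 := abs_sub_lt_iff.1 h6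
      have g1 : (⌊(y' c - x0 c) / ρ⌋ : ℝ) - ⌊(y c - x0 c) / ρ⌋ < 2 := by linarith [h7.1, h7.2]
      have g2 : (⌊(y c - x0 c) / ρ⌋ : ℝ) - ⌊(y' c - x0 c) / ρ⌋ < 2 := by linarith [h7.1, h7.2]
      have g3 : ⌊(y' c - x0 c) / ρ⌋ - ⌊(y c - x0 c) / ρ⌋ < 2 := by exact_mod_cast g1
      have g4 : ⌊(y c - x0 c) / ρ⌋ - ⌊(y' c - x0 c) / ρ⌋ < 2 := by exact_mod_cast g2
      push_cast at he
      omega
    have hsub : (⋃ y ∈ F.filter (fun y => κ y = k), Metric.ball y r) ⊆ S := by
      intro z hz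
      simp only [Set.mem_iUnion] at hz
      obtain ⟨y, hy, hz⟩ := hz
      rw [Finset.mem_filter] at hy
      refine hF y hy.1 z ?_
      intro c
      rw [Metric.mem_ball, dist_pi_lt_iff hr] at hz
      have := hz c
      rwa [Real.dist_eq] at this
    calc ((F.filter (fun y => κ y = k)).card : ENNReal) * ENNReal.ofReal ((2 * r) ^ m)
        = ∑ y ∈ F.filter (fun y => κ y = k), volume (Metric.ball y r) := by
          rw [Finset.sum_congr rfl (fun y _ => Real.volume_pi_ball y hr), Finset.sum_const,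
            Fintype.card_fin, nsmul_eq_mul]
      _ = volume (⋃ y ∈ F.filter (fun y => κ y = k), Metric.ball y r) :=
          (measure_biUnion_finset hd (fun y _ => Metric.isOpen_ball.measurableSet)).symm
      _ ≤ volume S := measure_mono hsub
  have hcard : F.card = ∑ k : Fin m → ZMod 2, (F.filter (fun y => κ y = k)).card :=
    Finset.card_eq_sum_card_fiberwise (fun y _ => Finset.mem_coe.2 (Finset.mem_univ _))
  calc (F.card : ENNReal) * ENNReal.ofReal ((2 * r) ^ m)
      = ∑ k : Fin m → ZMod 2, ((F.filter (fun y => κ y = k)).card : ENNReal) *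
          ENNReal.ofReal ((2 * r) ^ m) := by
        rw [hcard, ← Finset.sum_mul]
        push_cast
        rfl
    _ ≤ ∑ _k : Fin m → ZMod 2, volume S := Finset.sum_le_sum (fun k _ => hcls k)
    _ = 2 ^ m * volume S := by
        rw [Finset.sum_const, Finset.card_univ, Fintype.card_pi, nsmul_eq_mul]
        simp

theorem st_VOL : ST_VOL := by
  intro m
  have hm0 : (0 : ℝ) < m + 1 := by positivity
  refine ⟨1 / (2 * 2 ^ m * (m + 1) ^ m), by positivity, ?_⟩
  intro E T ρ X hρ hρ1 hX hT hTv h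
  have hr : 0 < ρ / (2 * (m + 1)) := by positivity
  obtain ⟨r, hrdef⟩ : ∃ r : ℝ, r = ρ / (2 * (m + 1)) := ⟨_, rfl⟩
  rw [← hrdef] at hr
  have h2r : 2 * r = ρ / (m + 1) := by
    rw [hrdef]
    field_simp
  have h2r' : 2 * r ≤ ρ := by
    rw [h2r]
    exact div_le_self hρ.le (by linarith [Nat.cast_nonneg (α := ℝ) m])
  have hU : MeasurableSet (Metric.thickening ρ E) := Metric.isOpen_thickening.measurableSet
  obtain ⟨hfub, hmeas⟩ := vol_fub (Metric.thickening ρ E) hU
  set s : ℝ → ENNReal := fun t => volume {y : Fin m → ℝ | pt y t ∈ Metric.thickening ρ E} with hs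
  -- lower bound on the slices
  have hlow : ∀ t ∈ T, ENNReal.ofReal (X * (2 * r) ^ m / 2 ^ m) ≤ s t := by
    intro t ht
    obtain ⟨F, x0, hF1, hF2, hF3⟩ := h t ht
    have h1 := vol_slice m {y : Fin m → ℝ | pt y t ∈ Metric.thickening ρ E} F x0 ρ r hρ hr h2r'
      (fun y hy y' hyy' => by
        show pt y' t ∈ Metric.thickening ρ E
        rw [Metric.mem_thickening_iff]
        refine ⟨pt y t, hF1 y hy, ?_⟩
        refine lt_of_lt_of_le (vol_dist y y' t r hr hyy') ?_
        have : (m + 1 : ℝ) * r = ρ / 2 := by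
          rw [hrdef]
          field_simp
        rw [this]
        linarith) hF2
    have h3 : ENNReal.ofReal X ≤ (F.card : ENNReal) := by
      rw [← ENNReal.ofReal_natCast]
      exact ENNReal.ofReal_le_ofReal hF3
    have h4 : ENNReal.ofReal X * ENNReal.ofReal ((2 * r) ^ m) ≤ 2 ^ m * s t :=
      le_trans (by gcongr) h1
    rw [← ENNReal.ofReal_mul hX] at h4
    rw [ENNReal.ofReal_div_of_pos (by positivity)]
    rw [ENNReal.div_le_iff_le_mul (Or.inl (by
      rw [Ne, ENNReal.ofReal_eq_zero, not_le]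
      positivity)) (Or.inl ENNReal.ofReal_ne_top)]
    refine h4.trans (le_of_eq ?_)
    rw [mul_comm, ENNReal.ofReal_pow (by norm_num)]
    simp
  have hmono : ENNReal.ofReal (1 / 2) ≤
      volume {t : ℝ | ENNReal.ofReal (X * (2 * r) ^ m / 2 ^ m) ≤ s t} :=
    hTv.trans (measure_mono hlow)
  have hmk := mul_meas_ge_le_lintegral hmeas (μ := volume)
    (ENNReal.ofReal (X * (2 * r) ^ m / 2 ^ m))
  rw [hfub]
  refine le_trans ?_ hmk
  refine le_trans ?_ (mul_le_mul_right hmono _)
  rw [← ENNReal.ofReal_mul (by positivity)]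
  apply ENNReal.ofReal_le_ofReal
  rw [h2r, div_pow]
  apply le_of_eq
  field_simp

end Pool.Agent.Helper70.DK
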